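import Pool.Agent.Helper67.DO.StmtsW
import Pool.Agent.Helper67.DO.BaseE

/-!
# MP_d07457_gt: module W7 (naturality of the window operators)
-/

set_option autoImplicit false

namespace Pool.Agent.Helper67.DO

open scoped BigOperators Real

noncomputable section

/-! ### elementary geometry of the pieces -/

theorem w7_per {N : ℕ} {P : Set ℤ} (hP : ∀ k, k ∈ P ↔ k + N ∈ P) (l : ℤ) (hl : l ∈ P) (t : ℤ) :
    l + t * N ∈ P := by
  induction t using Int.induction_on with
  | zero => simpa using hl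
  | succ n ih =>
    have h := (hP _).1 ih
    have e : l + ((n : ℤ) + 1) * N = l + (n : ℤ) * N + N := by ring
    rw [e]
    exact h
  | pred n ih =>
    have e : l + (-(n : ℤ) - 1) * N + N = l + (-(n : ℤ)) * N := by ring
    refine (hP _).2 ?_
    rw [e]
    exact ih

theorem w7_far {N : ℕ} (hN : 0 < N) (l k : ℤ) (hk : k ≠ l) : 1 / (N : ℝ) ≤ |(l : ℝ) / N - k / N| := by
  have hN' : (0 : ℝ) < N := Nat.cast_pos.2 hN
  rw [← sub_div, abs_div, abs_of_pos hN', div_le_div_iff_of_pos_right hN']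
  have h1 : (1 : ℤ) ≤ |l - k| := Int.one_le_abs (sub_ne_zero.2 (Ne.symm hk))
  have h2 : ((1 : ℤ) : ℝ) ≤ ((|l - k| : ℤ) : ℝ) := by exact_mod_cast h1
  push_cast at h2
  exact h2

theorem w7_far' {N : ℕ} (hN : 0 < N) (l k : ℤ) (hk : k ≠ l) {x ρ : ℝ} (hx : |x - l / N| ≤ ρ) :
    1 / (N : ℝ) - ρ ≤ |x - k / N| := by
  have h1 := w7_far hN l k hk
  have h2 : |(l : ℝ) / N - k / N| ≤ |x - k / N| + |x - l / N| := by
    have : (l : ℝ) / N - k / N = (x - k / N) - (x - l / N) := by ring
    rw [this]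
    exact abs_sub _ _
  linarith

theorem w7_lt {N : ℕ} (hN : 0 < N) {a b : ℤ} (h : a ≤ b) : (a : ℝ) / N ≤ b / N := by
  have hN' : (0 : ℝ) < N := Nat.cast_pos.2 hN
  rw [div_le_div_iff_of_pos_right hN']
  exact_mod_cast h

/-- a point near the window `l` belongs to the domain -/
theorem w7_win {N : ℕ} (hN : 0 < N) {P G : Set ℤ} {w' h' ρ : ℝ} {l : ℤ} (hw' : w' < 1 / (2 * N))
    (hρ : ρ < 1 / (2 * N)) {z : ℂ} (him : |z.im| < h') (hre : |z.re - l / N| ≤ ρ)
    (hl : l ∈ P → w' < |z.re - l / N|)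
    (hG1 : l - 1 ∈ G → (l : ℝ) / N < z.re) (hG0 : l ∈ G → z.re < (l : ℝ) / N) :
    z ∈ US N P G w' h' := by
  have hN' : (0 : ℝ) < N := Nat.cast_pos.2 hN
  have hhalf : 1 / (2 * (N : ℝ)) + 1 / (2 * N) = 1 / N := by
    field_simp
    norm_num
  refine ⟨him, fun k hk => ?_, fun k hk => ?_⟩
  · by_cases hkl : k = l
    · rw [hkl] at hk ⊢
      exact hl hk
    · have := w7_far' hN l k hkl hre
      linarith
  · have hre' := abs_le.1 hre
    have e1 : (((l - 1 : ℤ) : ℝ)) / N = (l : ℝ) / N - 1 / N := by push_cast; ring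
    have e2 : (((l + 1 : ℤ) : ℝ)) / N = (l : ℝ) / N + 1 / N := by push_cast; ring
    have h0 : 0 < 1 / (2 * (N : ℝ)) := by positivity
    rcases lt_trichotomy k (l - 1) with h | h | h
    · right
      have h1 : ((k + 1 : ℤ) : ℝ) / N ≤ ((l - 1 : ℤ) : ℝ) / N := w7_lt hN (by omega)
      push_cast at h1 e1
      rw [e1] at h1
      linarith [hre'.1]
    · right
      have h1 := hG1 (by rw [← h]; exact hk)
      rw [h]
      push_cast
      rw [sub_add_cancel]
      exact h1
    · rcases lt_trichotomy k l with h2 | h2 | h2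
      · omega
      · left
        rw [h2] at hk ⊢
        exact hG0 hk
      · left
        have h1 : ((l + 1 : ℤ) : ℝ) / N ≤ ((k : ℤ) : ℝ) / N := w7_lt hN (by omega)
        rw [e2] at h1
        linarith [hre'.2]

/-- the contour lies in the domain -/
theorem w7_cP {N : ℕ} (hN : 0 < N) {P G : Set ℤ} (hs : Shape N P G) {w' h' r σ : ℝ}
    (hw : w' < r) (hr : 0 < r) (hr' : r < 1 / (4 * N)) (hσ' : σ < h')
    (p : Pc N) {z : ℂ} (hz : z ∈ cP N P G r σ p) : z ∈ US N P G w' h' := by
  have hN' : (0 : ℝ) < N := Nat.cast_pos.2 hN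
  have hquart : 1 / (4 * (N : ℝ)) + 1 / (4 * N) = 1 / (2 * N) := by
    field_simp
    norm_num
  have hhalf : 1 / (2 * (N : ℝ)) + 1 / (2 * N) = 1 / N := by
    field_simp
    norm_num
  have h0 : 0 < 1 / (4 * (N : ℝ)) := by positivity
  rcases p with l | l
  · obtain ⟨h1, h2, h3, h4⟩ := hz
    refine ⟨by rw [h2]; exact hσ', fun k hk => ?_, fun k hk => ?_⟩
    · rcases le_or_gt k ((l : ℕ) : ℤ) with h | h
      · have h5 := w7_lt hN h
        rw [lt_abs]
        left
        push_cast at h5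
        linarith
      · have h5 : ((((l : ℕ) : ℤ) + 1 : ℤ) : ℝ) / N ≤ (k : ℝ) / N := w7_lt hN (by omega)
        rw [lt_abs]
        right
        push_cast at h5
        linarith
    · rcases lt_trichotomy k ((l : ℕ) : ℤ) with h | h | h
      · right
        have h5 : ((k + 1 : ℤ) : ℝ) / N ≤ (((l : ℕ) : ℤ) : ℝ) / N := w7_lt hN (by omega)
        push_cast at h5
        linarith
      · exact absurd (by rw [← h]; exact hk) h1
      · left
        have h5 : ((((l : ℕ) : ℤ) + 1 : ℤ) : ℝ) / N ≤ (k : ℝ) / N := w7_lt hN (by omega)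
        push_cast at h5
        linarith
  · rcases hz with (⟨h1, h2, h3⟩ | ⟨h1, h2, h3, h4⟩) | ⟨h1, h2, h3, h4⟩
    · refine w7_win hN (l := ((l : ℕ) : ℤ)) (ρ := r) (by linarith) (by linarith) (by rw [h2]; exact hσ')
        (by push_cast; exact h3) (fun h => absurd h h1) (fun h => ?_) (fun h => ?_)
      · have := hs.c1 _ h
        rw [sub_add_cancel] at this
        exact absurd this h1
      · exact absurd (hs.c0 _ h) h1
    · have e : z.re - (((l : ℕ) : ℤ) : ℝ) / N = -r := by push_cast; rw [h4]; ring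
      refine w7_win hN (l := ((l : ℕ) : ℤ)) (ρ := r) (by linarith) (by linarith) (by linarith)
        (by rw [e, abs_neg, abs_of_pos hr]) (fun h => by rw [e, abs_neg, abs_of_pos hr]; exact hw)
        (fun h => absurd h h2) (fun h => ?_)
      push_cast
      rw [h4]
      linarith
    · have e : z.re - (((l : ℕ) : ℤ) : ℝ) / N = r := by push_cast; rw [h4]; ring
      refine w7_win hN (l := ((l : ℕ) : ℤ)) (ρ := r) (by linarith) (by linarith) (by linarith)
        (by rw [e, abs_of_pos hr]) (fun h => by rw [e, abs_of_pos hr]; exact hw)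
        (fun h => ?_) (fun h => absurd h h2)
      push_cast
      rw [h4]
      linarith

/-- the contour stays at integral distance from the smaller domain -/
theorem w7_avoid {N : ℕ} (hN : 0 < N) {P Pz G : Set ℤ} (hPz : ∀ k, k ∈ Pz ↔ k + N ∈ Pz) {w h r σ : ℝ}
    (hr : 0 < r) (hrw : r < w) (hσ : h < σ) (p : Pc N)
    (hp : ∀ l : Fin N, p = Sum.inr l → ((l : ℕ) : ℤ) ∈ P → ((l : ℕ) : ℤ) ∈ Pz)
    {z ζ : ℂ} (hζ : ζ ∈ cP N P G r σ p) (hz : z ∈ US N Pz G w h) (t : ℤ) : ζ - z ≠ t := by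
  intro h0
  have hN' : (N : ℝ) ≠ 0 := (Nat.cast_pos.2 hN).ne'
  have him : ζ.im = z.im := by
    have := congrArg Complex.im h0
    simp only [Complex.sub_im, Complex.intCast_im] at this
    linarith
  have hre : ζ.re - z.re = t := by
    have := congrArg Complex.re h0
    simpa using this
  have h1 : |ζ.im| < σ := by
    rw [him]
    exact hz.1.trans hσ
  have key : ∀ l : Fin N, ((l : ℕ) : ℤ) ∈ Pz → |ζ.re - ((l : ℕ) : ℝ) / N| = r → False := by
    intro l hl hlr
    have h2 := hz.2.1 _ (w7_per hPz _ hl (-t))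
    have e : z.re - ((((l : ℕ) : ℤ) + -t * N : ℤ) : ℝ) / N = ζ.re - ((l : ℕ) : ℝ) / N := by
      push_cast
      rw [add_div, neg_mul, neg_div, mul_div_cancel_right₀ _ hN', ← hre]
      ring
    rw [e, hlr] at h2
    linarith
  rcases p with l | l
  · obtain ⟨_, h2, _⟩ := hζ
    rw [h2] at h1
    exact lt_irrefl _ h1
  · rcases hζ with (⟨_, h2, _⟩ | ⟨h2, _, _, h4⟩) | ⟨h2, _, _, h4⟩
    · rw [h2] at h1
      exact lt_irrefl _ h1
    · refine key l (hp l rfl h2) ?_
      rw [h4, sub_sub_cancel_left, abs_neg, abs_of_pos hr]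
    · refine key l (hp l rfl h2) ?_
      rw [h4, add_sub_cancel_left, abs_of_pos hr]

/-- separation near a removed window -/
theorem w7_sep {N : ℕ} (hN : 0 < N) {Pz G : Set ℤ} (hPz : ∀ k, k ∈ Pz ↔ k + N ∈ Pz) {w h ρ : ℝ}
    {l : ℤ} (hl : l ∈ Pz) {z ζ : ℂ} (hζ : |ζ.re - l / N| ≤ ρ) (hz : z ∈ US N Pz G w h) (t : ℤ) :
    w - ρ ≤ |(z - ζ).re - t| := by
  have hN' : (N : ℝ) ≠ 0 := (Nat.cast_pos.2 hN).ne'
  have h2 := hz.2.1 _ (w7_per hPz _ hl t)
  have e : z.re - ((l + t * N : ℤ) : ℝ) / N = ((z - ζ).re - t) + (ζ.re - l / N) := by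
    push_cast
    rw [add_div, mul_div_cancel_right₀ _ hN', Complex.sub_re]
    ring
  rw [e] at h2
  have h3 := abs_add_le ((z - ζ).re - t) (ζ.re - l / N)
  linarith

/-! ### differentiability of the kernel -/

theorem w7_sin {u : ℂ} (h : ∀ t : ℤ, u ≠ t) : Complex.sin (π * u) ≠ 0 := by
  intro h0
  obtain ⟨k, hk⟩ := Complex.sin_eq_zero_iff.1 h0
  have hpi : (π : ℂ) ≠ 0 := by exact_mod_cast Real.pi_ne_zero
  apply h k
  apply mul_left_cancel₀ hpi
  rw [hk, mul_comm]

theorem w7_snkap (u v : ℂ) : sn (u - v) * kap (v - u) =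
    Complex.sin (π * (v - u)) * Complex.cos (π * (v - u)) / (2 * Complex.I) := by
  unfold sn kap
  have e : (π : ℂ) * (u - v) = -(π * (v - u)) := by ring
  rw [e, Complex.sin_neg, Complex.cot_eq_cos_div_sin]
  by_cases h : Complex.sin (π * (v - u)) = 0
  · rw [h]
    simp
  · field_simp

theorem w7_prod {E : Type} [NormedAddCommGroup E] [NormedSpace ℂ E] {ι : Type} (s : Finset ι)
    (f : ι → E → ℂ) (x : E) (h : ∀ i ∈ s, DifferentiableAt ℂ (f i) x) :
    DifferentiableAt ℂ (fun x => ∏ i ∈ s, f i x) x := by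
  classical
  induction s using Finset.induction_on with
  | empty =>
    simp only [Finset.prod_empty]
    exact differentiableAt_const _
  | insert a s ha ih =>
    have e : (fun x => ∏ i ∈ insert a s, f i x) = fun x => f a x * ∏ i ∈ s, f i x := by
      funext x
      rw [Finset.prod_insert ha]
    rw [e]
    exact (h a (Finset.mem_insert_self a s)).mul (ih fun i hi => h i (Finset.mem_insert_of_mem hi))

theorem w7_div {E : Type} [NormedAddCommGroup E] [NormedSpace ℂ E] {f g : E → ℂ} {x : E}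
    (hf : DifferentiableAt ℂ f x) (hg : DifferentiableAt ℂ g x) (h : g x ≠ 0) :
    DifferentiableAt ℂ (fun x => f x / g x) x := by
  have e : (fun x => f x / g x) = fun x => f x * (g x)⁻¹ := by
    funext x
    rw [div_eq_mul_inv]
  rw [e]
  exact hf.mul (hg.fun_inv h)

theorem w7_diffPw {N q : ℕ} (l : Fin N) (τ : Fin q → Pc N) (z : Fin q → ℂ) (ζ : Fin q → ℂ) :
    DifferentiableAt ℂ (fun ζ => Pw l τ z ζ) ζ := by
  unfold Pw
  apply w7_prod
  intro j _
  split_ifs with h
  · unfold sn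
    fun_prop
  · exact differentiableAt_const _

theorem w7_diffSw {N q M : ℕ} (τ : Fin q → Pc N) (z : Fin q → ℂ) (ζ : Fin q → ℂ) :
    DifferentiableAt ℂ (fun ζ => Sw M τ z ζ) ζ := by
  unfold Sw
  apply DifferentiableAt.fun_sum
  intro l _
  split_ifs with h
  · exact w7_diffPw l τ z ζ
  · exact differentiableAt_const _

theorem w7_diffK {N q M : ℕ} (k : Fin N) (τ : Fin q → Pc N) (F : (Fin q → ℂ) → ℂ) (z ζ : Fin q → ℂ)
    (hF : DifferentiableAt ℂ F ζ) (hS : Sw M τ z ζ ≠ 0)
    (hj : ∀ j, τ j ≠ Sum.inr k → ∀ t : ℤ, ζ j - z j ≠ t) :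
    DifferentiableAt ℂ (fun ζ => F ζ * (Pw k τ z ζ / Sw M τ z ζ) * ∏ j, kap (ζ j - z j)) ζ := by
  classical
  have e : (fun ζ => F ζ * (Pw k τ z ζ / Sw M τ z ζ) * ∏ j, kap (ζ j - z j)) =
      fun ζ => F ζ / Sw M τ z ζ * ∏ j, (if τ j = Sum.inr k then
        Complex.sin (π * (ζ j - z j)) * Complex.cos (π * (ζ j - z j)) / (2 * Complex.I)
        else kap (ζ j - z j)) := by
    funext ζ
    have e1 : ∏ j, (if τ j = Sum.inr k then
        Complex.sin (π * (ζ j - z j)) * Complex.cos (π * (ζ j - z j)) / (2 * Complex.I)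
        else kap (ζ j - z j)) = Pw k τ z ζ * ∏ j, kap (ζ j - z j) := by
      unfold Pw
      rw [← Finset.prod_mul_distrib]
      refine Finset.prod_congr rfl fun j _ => ?_
      split_ifs with h
      · exact (w7_snkap _ _).symm
      · rw [one_mul]
    rw [e1]
    ring
  rw [e]
  refine (w7_div hF (w7_diffSw τ z ζ) hS).mul ?_
  apply w7_prod
  intro j _
  split_ifs with h
  · fun_prop
  · unfold kap
    have h1 := w7_sin (hj j h)
    have e2 : (fun ζ : Fin q → ℂ => Complex.cot (π * (ζ j - z j)) / (2 * Complex.I)) =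
        fun ζ : Fin q → ℂ => Complex.cos (π * (ζ j - z j)) / Complex.sin (π * (ζ j - z j)) /
          (2 * Complex.I) := by
      funext ζ
      rw [Complex.cot_eq_cos_div_sin]
    rw [e2]
    refine w7_div ?_ (differentiableAt_const _) (by simp)
    refine w7_div ?_ ?_ h1
    · fun_prop
    · fun_prop

/-! ### change of the contour in the iterated integral -/

theorem w7_congr {N : ℕ} (hN : 0 < N) {P G : Set ℤ} {r σ : ℝ} (hr : 0 < r) (hr' : r < 1 / (4 * N))
    (hσ : 0 < σ) (p : Pc N) {f g : ℂ → ℂ} (h : ∀ ζ ∈ cP N P G r σ p, f ζ = g ζ) :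
    pI N P G r σ p f = pI N P G r σ p g := by
  have hN' : (0 : ℝ) < N := Nat.cast_pos.2 hN
  have hquart : 1 / (4 * (N : ℝ)) + 1 / (4 * N) + (1 / (4 * (N : ℝ)) + 1 / (4 * N)) = 1 / N := by
    field_simp
    norm_num
  have h0 : 0 < 1 / (4 * (N : ℝ)) := by positivity
  rcases p with l | l
  · simp only [pI]
    by_cases hG : ((l : ℕ) : ℤ) ∈ G
    · simp only [hG, if_true]
    simp only [hG, if_false]
    unfold gapI
    apply intervalIntegral.integral_congr
    intro x hx
    have hle : ((((l : ℕ) : ℤ) : ℝ)) / N + r ≤ ((((l : ℕ) : ℤ) : ℝ) + 1) / N - r := by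
      rw [add_div]
      linarith
    rw [Set.uIcc_of_le hle] at hx
    obtain ⟨hx1, hx2⟩ := hx
    push_cast at hx1 hx2
    have e1 : f ((x : ℂ) - σ * Complex.I) = g ((x : ℂ) - σ * Complex.I) := by
      apply h
      refine ⟨hG, ?_, ?_, ?_⟩
      · simp [abs_of_pos hσ]
      · simpa using hx1
      · simpa using hx2
    have e2 : f ((x : ℂ) + σ * Complex.I) = g ((x : ℂ) + σ * Complex.I) := by
      apply h
      refine ⟨hG, ?_, ?_, ?_⟩
      · simp [abs_of_pos hσ]
      · simpa using hx1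
      · simpa using hx2
    show f _ - f _ = g _ - g _
    rw [e1, e2]
  · simp only [pI]
    by_cases hP : ((l : ℕ) : ℤ) ∈ P
    · simp only [hP, if_true]
      have eL : ((l : ℕ) : ℤ) - 1 ∉ G → verL N r σ ((l : ℕ) : ℤ) f = verL N r σ ((l : ℕ) : ℤ) g := by
        intro hG
        unfold verL
        congr 1
        apply intervalIntegral.integral_congr
        intro y hy
        rw [Set.uIcc_of_le (by linarith)] at hy
        apply h
        refine Or.inl (Or.inr ⟨hP, hG, ?_, ?_⟩)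
        · rw [abs_le]
          simpa using hy
        · simp
      have eR : ((l : ℕ) : ℤ) ∉ G → verR N r σ ((l : ℕ) : ℤ) f = verR N r σ ((l : ℕ) : ℤ) g := by
        intro hG
        unfold verR
        congr 1
        apply intervalIntegral.integral_congr
        intro y hy
        rw [Set.uIcc_of_le (by linarith)] at hy
        apply h
        refine Or.inr ⟨hP, hG, ?_, ?_⟩
        · rw [abs_le]
          simpa using hy
        · simp
      by_cases hG1 : ((l : ℕ) : ℤ) - 1 ∈ G
      · by_cases hG0 : ((l : ℕ) : ℤ) ∈ G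
        · simp only [hG1, hG0, if_true]
        · simp only [hG1, hG0, if_true, if_false]
          rw [eR hG0]
      · by_cases hG0 : ((l : ℕ) : ℤ) ∈ G
        · simp only [hG1, hG0, if_true, if_false]
          rw [eL hG1]
        · simp only [hG1, hG0, if_false]
          rw [eL hG1, eR hG0]
    · simp only [hP, if_false]
      unfold capI
      apply intervalIntegral.integral_congr
      intro x hx
      rw [Set.uIcc_of_le (by linarith)] at hx
      obtain ⟨hx1, hx2⟩ := hx
      push_cast at hx1 hx2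
      have e1 : f ((x : ℂ) - σ * Complex.I) = g ((x : ℂ) - σ * Complex.I) := by
        apply h
        refine Or.inl (Or.inl ⟨hP, ?_, ?_⟩)
        · simp [abs_of_pos hσ]
        · rw [abs_le]
          constructor <;> simp <;> linarith
      have e2 : f ((x : ℂ) + σ * Complex.I) = g ((x : ℂ) + σ * Complex.I) := by
        apply h
        refine Or.inl (Or.inl ⟨hP, ?_, ?_⟩)
        · simp [abs_of_pos hσ]
        · rw [abs_le]
          constructor <;> simp <;> linarith
      show f _ - f _ = g _ - g _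
      rw [e1, e2]

open Classical in
/-- contour pieces, window `i` replaced by a neighbourhood of its closed rectangle -/
def w7D (N : ℕ) (P G : Set ℤ) (r σ : ℝ) (i : Fin N) (O : Set ℂ) (p : Pc N) : Set ℂ :=
  if p = Sum.inr i then O else cP N P G r σ p

theorem w7_it (h1b : ST_W1b) (h4 : ST_W4) {N : ℕ} (hN : 0 < N) {P1 P2 G : Set ℤ} {r σ : ℝ}
    (hr : 0 < r) (hr' : r < 1 / (4 * N)) (hσ : 0 < σ) (i : Fin N) (O : Set ℂ) (hO : IsOpen O)
    (hOr : {z : ℂ | |z.re - ((i : ℕ) : ℝ) / N| ≤ r ∧ |z.im| ≤ σ} ⊆ O)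
    (hi1 : ((i : ℕ) : ℤ) ∉ P1) (hi2 : ((i : ℕ) : ℤ) ∈ P2) (hG0 : ((i : ℕ) : ℤ) ∉ G)
    (hG1 : ((i : ℕ) : ℤ) - 1 ∉ G)
    (hP : ∀ l : Fin N, l ≠ i → (((l : ℕ) : ℤ) ∈ P1 ↔ ((l : ℕ) : ℤ) ∈ P2)) :
    ∀ (q : ℕ) (τ : Fin q → Pc N) (K : (Fin q → ℂ) → ℂ),
      (∀ ζ, (∀ j, ζ j ∈ w7D N P1 G r σ i O (τ j)) → DifferentiableAt ℂ K ζ) →
      itI N P1 G r σ q τ K = itI N P2 G r σ q τ K := by
  have hsub1 : ∀ p : Pc N, cP N P1 G r σ p ⊆ w7D N P1 G r σ i O p := by
    intro p ζ hζ
    unfold w7D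
    split_ifs with h
    · rw [h] at hζ
      apply hOr
      rcases hζ with (⟨h1, h2, h3⟩ | ⟨h1, _⟩) | ⟨h1, _⟩
      · exact ⟨h3, h2.le⟩
      · exact absurd h1 hi1
      · exact absurd h1 hi1
    · exact hζ
  have hsub2 : ∀ p : Pc N, cP N P2 G r σ p ⊆ w7D N P1 G r σ i O p := by
    intro p ζ hζ
    unfold w7D
    split_ifs with h
    · rw [h] at hζ
      apply hOr
      rcases hζ with (⟨h1, h2, h3⟩ | ⟨h1, _, h3, h4⟩) | ⟨h1, _, h3, h4⟩
      · exact ⟨h3, h2.le⟩
      · refine ⟨?_, h3⟩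
        rw [h4, sub_sub_cancel_left, abs_neg, abs_of_pos hr]
      · refine ⟨?_, h3⟩
        rw [h4, add_sub_cancel_left, abs_of_pos hr]
    · rcases p with l | l
      · exact hζ
      · have hl : l ≠ i := fun hl => h (by rw [hl])
        have hPl := hP l hl
        rcases hζ with (⟨h1, h2⟩ | ⟨h1, h2⟩) | ⟨h1, h2⟩
        · exact Or.inl (Or.inl ⟨fun h3 => h1 (hPl.1 h3), h2⟩)
        · exact Or.inl (Or.inr ⟨hPl.2 h1, h2⟩)
        · exact Or.inr ⟨hPl.2 h1, h2⟩
  intro q
  induction q with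
  | zero =>
    intro τ K _
    rfl
  | succ q ih =>
    intro τ K hK
    -- sections of `K`
    have hcons : ∀ ζ ∈ w7D N P1 G r σ i O (τ 0), ∀ v : Fin q → ℂ,
        (∀ j, v j ∈ w7D N P1 G r σ i O (τ j.succ)) →
        DifferentiableAt ℂ K (Fin.cons ζ v : Fin (q + 1) → ℂ) := by
      intro ζ hζ v hv
      apply hK
      intro j
      refine Fin.cases ?_ (fun j => ?_) j
      · exact hζ
      · exact hv j
    show pI N P1 G r σ (τ 0) (fun ζ => itI N P1 G r σ q (fun i => τ i.succ) (fun v => K (Fin.cons ζ v))) =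
      pI N P2 G r σ (τ 0) (fun ζ => itI N P2 G r σ q (fun i => τ i.succ) (fun v => K (Fin.cons ζ v)))
    have step1 : pI N P1 G r σ (τ 0)
        (fun ζ => itI N P1 G r σ q (fun i => τ i.succ) (fun v => K (Fin.cons ζ v))) =
        pI N P1 G r σ (τ 0)
        (fun ζ => itI N P2 G r σ q (fun i => τ i.succ) (fun v => K (Fin.cons ζ v))) := by
      apply w7_congr hN hr hr' hσ
      intro ζ hζ
      apply ih
      intro v hv
      have h1 : DifferentiableAt ℂ (fun v : Fin q → ℂ => (Fin.cons ζ v : Fin (q + 1) → ℂ)) v := by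
        rw [differentiableAt_pi]
        intro j
        refine Fin.cases ?_ (fun j => ?_) j
        · simp only [Fin.cons_zero]
          exact differentiableAt_const _
        · simp only [Fin.cons_succ]
          fun_prop
      exact DifferentiableAt.comp v (hcons ζ (hsub1 _ hζ) v hv) h1
    rw [step1]
    rcases hτ : τ 0 with l | l
    · rfl
    · by_cases hl : l = i
      · rw [hl]
        have hD0 : w7D N P1 G r σ i O (τ 0) = O := by
          unfold w7D
          rw [hτ, hl, if_pos rfl]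
        simp only [pI]
        rw [if_neg hi1, if_pos hi2, if_neg hG1, if_neg hG0]
        apply h1b N r σ _ _ hr hσ
        -- holomorphic dependence on the parameter
        obtain ⟨L, hL⟩ := h4 N q 1 P2 G r σ hN hr hr' hσ (fun i => τ i.succ)
        have hU : IsOpen {x : Fin 1 → ℂ | x 0 ∈ O} := hO.preimage (continuous_apply 0)
        have hcd : ∀ x : Fin 1 → ℂ, x 0 ∈ O → ∀ v : Fin q → ℂ,
            (∀ j, v j ∈ cP N P2 G r σ (τ j.succ)) →
            DifferentiableAt ℂ (fun y : (Fin 1 → ℂ) × (Fin q → ℂ) =>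
              K (Fin.cons (y.1 0) y.2 : Fin (q + 1) → ℂ)) (x, v) := by
          intro x hx v hv
          have h1 : DifferentiableAt ℂ (fun y : (Fin 1 → ℂ) × (Fin q → ℂ) =>
              (Fin.cons (y.1 0) y.2 : Fin (q + 1) → ℂ)) (x, v) := by
            rw [differentiableAt_pi]
            intro j
            refine Fin.cases ?_ (fun j => ?_) j
            · simp only [Fin.cons_zero]
              fun_prop
            · simp only [Fin.cons_succ]
              fun_prop
          refine DifferentiableAt.comp (x, v) ?_ h1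
          exact hcons (x 0) (by rw [hD0]; exact hx) v (fun j => hsub2 _ (hv j))
        obtain ⟨h5, _⟩ := hL {x : Fin 1 → ℂ | x 0 ∈ O}
          (fun x v => K (Fin.cons (x 0) v : Fin (q + 1) → ℂ)) hU
          (by
            intro y hy
            exact (hcd y.1 hy.1 y.2 hy.2).continuousAt.continuousWithinAt)
          (by
            intro v hv x hx
            have h6 := hcd x hx v hv
            have h7 : DifferentiableAt ℂ (fun x : Fin 1 → ℂ => (x, v)) x := by fun_prop
            exact (DifferentiableAt.comp x h6 h7).differentiableWithinAt)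
        intro ζ hζ
        have hζO : ζ ∈ O := hOr (by simpa using hζ)
        have h6 : DifferentiableAt ℂ (fun x : Fin 1 → ℂ => itI N P2 G r σ q (fun i => τ i.succ)
            (fun v => K (Fin.cons (x 0) v : Fin (q + 1) → ℂ))) (fun _ => ζ) :=
          h5.differentiableAt (hU.mem_nhds hζO)
        have h7 : DifferentiableAt ℂ (fun ζ : ℂ => (fun _ : Fin 1 => ζ)) ζ := by
          rw [differentiableAt_pi]
          intro j
          exact differentiableAt_id
        exact (DifferentiableAt.comp ζ h6 h7).differentiableWithinAt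
      · simp only [pI]
        have hPl := hP l hl
        by_cases h : ((l : ℕ) : ℤ) ∈ P1
        · rw [if_pos h, if_pos (hPl.1 h)]
        · rw [if_neg h, if_neg (fun h2 => h (hPl.2 h2))]

/-! ### the main statement -/

theorem w7_red {N : ℕ} (l m : Fin N) (t : ℤ) (h : ((l : ℕ) : ℤ) - t * N = ((m : ℕ) : ℤ)) : l = m := by
  have hl : ((l : ℕ) : ℤ) < N := by exact_mod_cast l.2
  have hm : ((m : ℕ) : ℤ) < N := by exact_mod_cast m.2
  have hl0 : (0 : ℤ) ≤ ((l : ℕ) : ℤ) := Int.natCast_nonneg _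
  have hm0 : (0 : ℤ) ≤ ((m : ℕ) : ℤ) := Int.natCast_nonneg _
  have ht : t = 0 := by
    rcases lt_trichotomy t 0 with h1 | h1 | h1
    · nlinarith
    · exact h1
    · nlinarith
  rw [ht, zero_mul, sub_zero] at h
  apply Fin.ext
  exact_mod_cast h

theorem w7_pigeon {N M q : ℕ} (hM : M ≤ N) (hq : q < M) (τ : Fin q → Pc N) :
    ∃ i : Fin N, (i : ℕ) < M ∧ ∀ j, τ j ≠ Sum.inr i := by
  by_contra hcon
  push Not at hcon
  have h1 : ∀ a : Fin M, ∃ j, τ j = Sum.inr (⟨a, lt_of_lt_of_le a.2 hM⟩ : Fin N) :=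
    fun a => hcon ⟨a, lt_of_lt_of_le a.2 hM⟩ a.2
  choose f hf using h1
  have hinj : Function.Injective f := by
    intro a b hab
    have h2 := hf a
    rw [hab, hf b] at h2
    have h3 := Sum.inr.inj h2
    have h4 := congrArg Fin.val h3
    exact Fin.ext h4.symm
  have h5 := Fintype.card_le_of_injective f hinj
  simp only [Fintype.card_fin] at h5
  omega

theorem st_W7 (h1b : ST_W1b) (h3 : ST_W3) (h4 : ST_W4) : ST_W7 := by
  intro N M q P G I i k hD hi hk hI w' w hw' hw hwN
  have hN := hD.pos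
  have hN' : (0 : ℝ) < N := Nat.cast_pos.2 hN
  have hquart : 1 / (4 * (N : ℝ)) + 1 / (4 * N) = 1 / (2 * N) := by
    field_simp
    norm_num
  have hq0 : 0 < 1 / (4 * (N : ℝ)) := by positivity
  obtain ⟨h0, ρ, C, hh0, hρ, hW3⟩ := h3 N q ((w - w') / 4) hN (by linarith)
  refine ⟨h0, hh0, ?_⟩
  intro h h' hh hhh' hh'0
  intro F hF
  by_cases hiI : ((i : ℕ) : ℤ) ∈ I
  · have e : I ∪ {((i : ℕ) : ℤ)} = I := by
      apply Set.union_eq_left.2
      intro x hx
      rw [Set.mem_singleton_iff] at hx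
      rw [hx]
      exact hiI
    rw [e]
    exact ⟨fun _ _ z _ => rfl, fun _ z _ => rfl⟩
  have hIN : ∀ (l : Fin N) (t : ℤ), ((l : ℕ) : ℤ) - t * N ∈ I → ((l : ℕ) : ℤ) ∈ I := by
    intro l t ht
    obtain ⟨h1, h2⟩ := hI _ ht
    have h5 : ((l : ℕ) : ℤ) - t * N < N := lt_of_lt_of_le h2 (by exact_mod_cast hD.le)
    have h6 : (((⟨(((l : ℕ) : ℤ) - t * N).toNat, by omega⟩ : Fin N) : ℕ) : ℤ) = ((l : ℕ) : ℤ) - t * N :=
      Int.toNat_of_nonneg h1
    have h7 := w7_red l ⟨(((l : ℕ) : ℤ) - t * N).toNat, by omega⟩ t h6.symm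
    rw [← h7] at h6
    rw [h6]
    exact ht
  have hi1 : ((i : ℕ) : ℤ) ∉ P ∪ pcl N I := by
    rintro (h1 | ⟨t, ht⟩)
    · exact hD.out _ hi h1
    · exact hiI (hIN i t ht)
  have hi2 : ((i : ℕ) : ℤ) ∈ P ∪ pcl N (I ∪ {((i : ℕ) : ℤ)}) :=
    Or.inr (subset_pcl N _ (Or.inr rfl))
  have hG0 : ((i : ℕ) : ℤ) ∉ G := fun h1 => hi1 (Or.inl (hD.sh.c0 _ h1))
  have hG1 : ((i : ℕ) : ℤ) - 1 ∉ G := by
    intro h1
    have h2 := hD.sh.c1 _ h1
    rw [sub_add_cancel] at h2
    exact hi1 (Or.inl h2)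
  have hPP : ∀ l : Fin N, l ≠ i → (((l : ℕ) : ℤ) ∈ P ∪ pcl N I ↔
      ((l : ℕ) : ℤ) ∈ P ∪ pcl N (I ∪ {((i : ℕ) : ℤ)})) := by
    intro l hl
    rw [pcl_union, ← Set.union_assoc]
    constructor
    · exact fun h1 => Or.inl h1
    · rintro (h1 | ⟨t, ht⟩)
      · exact h1
      · exact absurd (w7_red l i t ht) hl
  have hs1 : Shape N (P ∪ pcl N I) G := hD.sh.union I
  set r := (w' + w) / 2 with hr_def
  set σ := (h' + h) / 2 with hσ_def
  have hr : 0 < r := by rw [hr_def]; linarith
  have hr' : r < 1 / (4 * N) := by rw [hr_def]; linarith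
  have hrw : r < w := by rw [hr_def]; linarith
  have hw'r : w' < r := by rw [hr_def]; linarith
  have hσ : 0 < σ := by rw [hσ_def]; linarith
  have hσ' : σ < h' := by rw [hσ_def]; linarith
  have hhσ : h < σ := by rw [hσ_def]; linarith
  have hρ'' : r + (w - w') / 4 < w := by rw [hr_def]; linarith
  have hgap : w - (r + (w - w') / 4) = (w - w') / 4 := by rw [hr_def]; ring
  -- the open set
  set O : Set ℂ := {z | |z.re - ((i : ℕ) : ℝ) / N| < r + (w - w') / 4 ∧ |z.im| < h'} with hO_def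
  have hO : IsOpen O := by
    rw [hO_def]
    exact (isOpen_lt (continuous_abs.comp (Complex.continuous_re.sub continuous_const))
      continuous_const).inter (isOpen_lt (continuous_abs.comp Complex.continuous_im) continuous_const)
  have hOr : {z : ℂ | |z.re - ((i : ℕ) : ℝ) / N| ≤ r ∧ |z.im| ≤ σ} ⊆ O := by
    rintro z ⟨h1, h2⟩
    exact ⟨by linarith, by linarith⟩
  have hOUS : O ⊆ US N (P ∪ pcl N I) G w' h' := by
    rintro z ⟨h1, h2⟩
    refine w7_win hN (l := ((i : ℕ) : ℤ)) (ρ := r + (w - w') / 4) (by linarith) (by linarith) h2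
      (by push_cast; exact h1.le) (fun h => absurd h hi1) (fun h => absurd h hG1) (fun h => absurd h hG0)
  have hDUS : ∀ p : Pc N, w7D N (P ∪ pcl N I) G r σ i O p ⊆ US N (P ∪ pcl N I) G w' h' := by
    intro p z hz
    unfold w7D at hz
    split_ifs at hz with h1
    · exact hOUS hz
    · exact w7_cP hN hs1 hw'r hr hr' hσ' p hz
  have key : ∀ Pz : Set ℤ, (∀ m, m ∈ Pz ↔ m + N ∈ Pz) →
      (∀ l : Fin N, l ≠ k → ((l : ℕ) : ℤ) ∈ P ∪ pcl N I → ((l : ℕ) : ℤ) ∈ Pz) →
      (k = i ∨ ((i : ℕ) : ℤ) ∈ Pz) →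
      (∀ τ : Fin q → Pc N, ∃ i' : Fin N, (i' : ℕ) < M ∧ ((∀ j, τ j ≠ Sum.inr i') ∨
        (((i' : ℕ) : ℤ) ∈ Pz ∧ (((i' : ℕ) : ℤ) ∈ P ∪ pcl N I ∨ i' = i)))) →
      ∀ z ∈ PU q (US N Pz G w h), eop N (P ∪ pcl N I) G r σ M k q F z =
        eop N (P ∪ pcl N (I ∪ {((i : ℕ) : ℤ)})) G r σ M k q F z := by
    intro Pz hPz hA hB hC z hz
    unfold eop
    refine Finset.sum_congr rfl fun τ _ => ?_
    apply w7_it h1b h4 hN hr hr' hσ i O hO hOr hi1 hi2 hG0 hG1 hPP q τ
    intro ζ hζ
    have hζUS : ζ ∈ PU q (US N (P ∪ pcl N I) G w' h') := fun j => hDUS _ (hζ j)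
    apply w7_diffK
    · refine hF.hol.differentiableAt (IsOpen.mem_nhds ?_ hζUS)
      have e : PU q (US N (P ∪ pcl N I) G w' h') =
          Set.pi Set.univ (fun _ : Fin q => US N (P ∪ pcl N I) G w' h') := by
        ext x
        simp [PU]
      rw [e]
      exact isOpen_set_pi Set.finite_univ (fun _ _ => isOpen_US hN _ _ _ _)
    · intro hS
      obtain ⟨i', hi', hcase⟩ := hC τ
      have h5 := (hW3 M τ z ζ (fun j => (((hz j).1).le.trans (by linarith)))
        (fun j => (((hζUS j).1).le.trans (by linarith))) ⟨i', hi', ?_⟩).1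
      · rw [hS, Complex.zero_re] at h5
        linarith
      · intro j hj t
        rcases hcase with h6 | ⟨h6, h7⟩
        · exact absurd hj (h6 j)
        · have h8 : |(ζ j).re - ((((i' : ℕ) : ℤ) : ℝ)) / N| ≤ r + (w - w') / 4 := by
            have h9 := hζ j
            unfold w7D at h9
            rw [hj] at h9
            by_cases hii : i' = i
            · rw [if_pos (by rw [hii])] at h9
              rw [hii]
              push_cast
              exact h9.1.le
            · have h10 : (Sum.inr i' : Pc N) ≠ Sum.inr i := fun h11 => hii (Sum.inr.inj h11)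
              rw [if_neg h10] at h9
              have h12 : ((i' : ℕ) : ℤ) ∈ P ∪ pcl N I := h7.resolve_right hii
              push_cast
              rcases h9 with (⟨h13, _⟩ | ⟨_, _, _, h14⟩) | ⟨_, _, _, h14⟩
              · exact absurd h12 h13
              · rw [h14, sub_sub_cancel_left, abs_neg, abs_of_pos hr]
                linarith
              · rw [h14, add_sub_cancel_left, abs_of_pos hr]
                linarith
          have h15 := w7_sep hN hPz h6 h8 (hz j) t
          rw [hgap] at h15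
          exact h15
    · intro j hj t ht
      by_cases hji : τ j = Sum.inr i
      · have hki : k ≠ i := fun h5 => hj (by rw [h5]; exact hji)
        have hiz := hB.resolve_left hki
        have h9 := hζ j
        unfold w7D at h9
        rw [if_pos hji] at h9
        have h15 := w7_sep hN hPz hiz (ρ := r + (w - w') / 4) (by push_cast; exact h9.1.le) (hz j) (-t)
        have h16 : (z j - ζ j).re - ((-t : ℤ) : ℝ) = 0 := by
          have h17 : z j - ζ j = -((t : ℤ) : ℂ) := by rw [← ht]; ring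
          rw [h17]
          simp
        rw [h16, abs_zero, hgap] at h15
        linarith
      · have h9 := hζ j
        unfold w7D at h9
        rw [if_neg hji] at h9
        refine w7_avoid hN hPz hr hrw hhσ (τ j) (fun l hl hlP => ?_) h9 (hz j) t ht
        exact hA l (fun h5 => hj (by rw [hl, h5])) hlP
  refine ⟨fun hki hIq z hz => ?_, fun hki z hz => ?_⟩
  · refine key (P ∪ pcl N I) hs1.perP (fun l _ hl => hl) (Or.inl hki) (fun τ => ?_) z hz
    rcases hIq with ⟨m, hm⟩ | hqM
    · obtain ⟨h1, h2⟩ := hI m hm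
      have hMN := hD.le
      have h6 : (((⟨m.toNat, by omega⟩ : Fin N) : ℕ) : ℤ) = m := Int.toNat_of_nonneg h1
      refine ⟨⟨m.toNat, by omega⟩, ?_, Or.inr ?_⟩
      · show m.toNat < M
        omega
      · have h7 : (((⟨m.toNat, by omega⟩ : Fin N) : ℕ) : ℤ) ∈ P ∪ pcl N I := by
          rw [h6]
          exact Or.inr (subset_pcl N I hm)
        exact ⟨h7, Or.inl h7⟩
    · obtain ⟨i', hi', h5⟩ := w7_pigeon hD.le hqM τ
      exact ⟨i', hi', Or.inl h5⟩
  · refine key _ (hD.sh.union _).perP (fun l hl hlP => ?_) (Or.inr ?_) (fun τ => ?_) z hz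
    · rcases hlP with h5 | ⟨t, ht⟩
      · exact Or.inl h5
      · refine Or.inr (subset_pcl N _ ⟨Or.inl (hIN l t ht), ?_⟩)
        rw [Set.mem_singleton_iff]
        intro h6
        apply hl
        apply Fin.ext
        exact_mod_cast h6
    · refine Or.inr (subset_pcl N _ ⟨Or.inr rfl, ?_⟩)
      rw [Set.mem_singleton_iff]
      intro h6
      apply hki
      apply Fin.ext
      exact_mod_cast h6.symm
    · refine ⟨i, hi, Or.inr ⟨?_, Or.inr rfl⟩⟩
      refine Or.inr (subset_pcl N _ ⟨Or.inr rfl, ?_⟩)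
      rw [Set.mem_singleton_iff]
      intro h6
      apply hki
      apply Fin.ext
      exact_mod_cast h6.symm

end

end Pool.Agent.Helper67.DO
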